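import Mathlib

set_option autoImplicit false

namespace Pool.Agent.Results.MP_3af439_nt.Counterexample

/-- The generalized Euler totient: the number of integers `i` with `1 ≤ i ≤ ⌊n/e⌋` and
`gcd(i,n) = 1`. -/
def phi (e n : ℕ) : ℕ := ((Finset.Icc 1 (n / e)).filter fun i => Nat.gcd i n = 1).card

/-- The thirteen exceptional composite numbers listed in the question. -/
def E : Finset ℕ := {4, 6, 8, 9, 12, 16, 21, 65, 425, 1729, 3201, 3531, 22865}

/-- Number of `1 ≤ i ≤ N` coprime to `m`. -/
def cnt (N m : ℕ) : ℕ := ((Finset.Icc 1 N).filter fun i => Nat.gcd i m = 1).card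

lemma cnt_one (N : ℕ) : cnt N 1 = N := by
  simp [cnt]

/-- Sieve recursion: removing the multiples of a prime `p`. -/
lemma cnt_mul (N m p : ℕ) (hp : p.Prime) (hpm : Nat.Coprime p m) :
    cnt N (m * p) + cnt (N / p) m = cnt N m := by
  unfold cnt
  have hpos : 0 < p := hp.pos
  -- split the numbers coprime to m by divisibility by p
  have h1 : ((Finset.Icc 1 N).filter fun i => Nat.gcd i m = 1) =
      ((Finset.Icc 1 N).filter fun i => Nat.gcd i (m * p) = 1) ∪
      (((Finset.Icc 1 (N / p)).filter fun i => Nat.gcd i m = 1).image (fun i => p * i)) := by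
    ext i
    simp only [Finset.mem_filter, Finset.mem_Icc, Finset.mem_union, Finset.mem_image]
    constructor
    · rintro ⟨⟨h1, h2⟩, h3⟩
      by_cases hd : p ∣ i
      · right
        obtain ⟨j, rfl⟩ := hd
        refine ⟨j, ⟨⟨?_, ?_⟩, ?_⟩, rfl⟩
        · rcases Nat.eq_zero_or_pos j with h | h
          · subst h; simp at h1
          · exact h
        · rw [Nat.le_div_iff_mul_le hpos, mul_comm]; exact h2
        · exact Nat.Coprime.coprime_dvd_left (Dvd.intro_left p rfl) h3
      · left
        refine ⟨⟨h1, h2⟩, ?_⟩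
        exact Nat.Coprime.mul_right h3 ((hp.coprime_iff_not_dvd.mpr hd).symm)
    · rintro (⟨⟨h1, h2⟩, h3⟩ | ⟨j, ⟨⟨h1, h2⟩, h3⟩, rfl⟩)
      · exact ⟨⟨h1, h2⟩, Nat.Coprime.coprime_mul_right_right h3⟩
      · refine ⟨⟨?_, ?_⟩, ?_⟩
        · exact Nat.mul_pos hpos h1
        · rw [Nat.le_div_iff_mul_le hpos, mul_comm] at h2; exact h2
        · exact Nat.Coprime.mul_left hpm h3
  rw [h1, Finset.card_union_of_disjoint, Finset.card_image_of_injective]
  · intro a b hab
    exact Nat.eq_of_mul_eq_mul_left hpos hab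
  · rw [Finset.disjoint_left]
    intro i hi hi'
    simp only [Finset.mem_filter, Finset.mem_Icc, Finset.mem_image] at hi hi'
    obtain ⟨j, _, rfl⟩ := hi'
    have h4 : Nat.Coprime (p * j) (m * p) := hi.2
    have h5 : Nat.Coprime p p :=
      Nat.Coprime.coprime_mul_left_right (Nat.Coprime.coprime_mul_right h4)
    rw [Nat.coprime_self] at h5
    exact hp.one_lt.ne' h5

/-- One step of the sieve recursion, in a form convenient for numerical evaluation. -/
lemma step {N N' m p M a b c : ℕ} (hp : p.Prime) (hpm : Nat.Coprime p m) (hN : N / p = N')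
    (hM : m * p = M) (ha : cnt N m = a) (hb : cnt N' m = b) (hc : c + b = a) :
    cnt N M = c := by
  have h := cnt_mul N m p hp hpm
  rw [hN, hM, ha, hb] at h
  omega

lemma phi_witness : phi 3 4125441 = 825088 := by
  have p3 : Nat.Prime 3 := by norm_num
  have p17 : Nat.Prime 17 := by norm_num
  have p23 : Nat.Prime 23 := by norm_num
  have p3517 : Nat.Prime 3517 := by norm_num
  have e_1375147_1 : cnt 1375147 1 = 1375147 := cnt_one _
  have e_458382_1 : cnt 458382 1 = 458382 := cnt_one _
  have e_1375147_3 : cnt 1375147 3 = 916765 :=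
    step (N := 1375147) (N' := 458382) (m := 1) (p := 3) p3 (by norm_num) (by norm_num) (by norm_num) e_1375147_1 e_458382_1
      (by norm_num)
  have e_80891_1 : cnt 80891 1 = 80891 := cnt_one _
  have e_26963_1 : cnt 26963 1 = 26963 := cnt_one _
  have e_80891_3 : cnt 80891 3 = 53928 :=
    step (N := 80891) (N' := 26963) (m := 1) (p := 3) p3 (by norm_num) (by norm_num) (by norm_num) e_80891_1 e_26963_1
      (by norm_num)
  have e_1375147_51 : cnt 1375147 51 = 862837 :=
    step (N := 1375147) (N' := 80891) (m := 3) (p := 17) p17 (by norm_num) (by norm_num) (by norm_num) e_1375147_3 e_80891_3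
      (by norm_num)
  have e_59789_1 : cnt 59789 1 = 59789 := cnt_one _
  have e_19929_1 : cnt 19929 1 = 19929 := cnt_one _
  have e_59789_3 : cnt 59789 3 = 39860 :=
    step (N := 59789) (N' := 19929) (m := 1) (p := 3) p3 (by norm_num) (by norm_num) (by norm_num) e_59789_1 e_19929_1
      (by norm_num)
  have e_3517_1 : cnt 3517 1 = 3517 := cnt_one _
  have e_1172_1 : cnt 1172 1 = 1172 := cnt_one _
  have e_3517_3 : cnt 3517 3 = 2345 :=
    step (N := 3517) (N' := 1172) (m := 1) (p := 3) p3 (by norm_num) (by norm_num) (by norm_num) e_3517_1 e_1172_1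
      (by norm_num)
  have e_59789_51 : cnt 59789 51 = 37515 :=
    step (N := 59789) (N' := 3517) (m := 3) (p := 17) p17 (by norm_num) (by norm_num) (by norm_num) e_59789_3 e_3517_3
      (by norm_num)
  have e_1375147_1173 : cnt 1375147 1173 = 825322 :=
    step (N := 1375147) (N' := 59789) (m := 51) (p := 23) p23 (by norm_num) (by norm_num) (by norm_num) e_1375147_51 e_59789_51
      (by norm_num)
  have e_391_1 : cnt 391 1 = 391 := cnt_one _
  have e_130_1 : cnt 130 1 = 130 := cnt_one _
  have e_391_3 : cnt 391 3 = 261 :=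
    step (N := 391) (N' := 130) (m := 1) (p := 3) p3 (by norm_num) (by norm_num) (by norm_num) e_391_1 e_130_1
      (by norm_num)
  have e_23_1 : cnt 23 1 = 23 := cnt_one _
  have e_7_1 : cnt 7 1 = 7 := cnt_one _
  have e_23_3 : cnt 23 3 = 16 :=
    step (N := 23) (N' := 7) (m := 1) (p := 3) p3 (by norm_num) (by norm_num) (by norm_num) e_23_1 e_7_1
      (by norm_num)
  have e_391_51 : cnt 391 51 = 245 :=
    step (N := 391) (N' := 23) (m := 3) (p := 17) p17 (by norm_num) (by norm_num) (by norm_num) e_391_3 e_23_3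
      (by norm_num)
  have e_17_1 : cnt 17 1 = 17 := cnt_one _
  have e_5_1 : cnt 5 1 = 5 := cnt_one _
  have e_17_3 : cnt 17 3 = 12 :=
    step (N := 17) (N' := 5) (m := 1) (p := 3) p3 (by norm_num) (by norm_num) (by norm_num) e_17_1 e_5_1
      (by norm_num)
  have e_1_1 : cnt 1 1 = 1 := cnt_one _
  have e_0_1 : cnt 0 1 = 0 := cnt_one _
  have e_1_3 : cnt 1 3 = 1 :=
    step (N := 1) (N' := 0) (m := 1) (p := 3) p3 (by norm_num) (by norm_num) (by norm_num) e_1_1 e_0_1
      (by norm_num)
  have e_17_51 : cnt 17 51 = 11 :=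
    step (N := 17) (N' := 1) (m := 3) (p := 17) p17 (by norm_num) (by norm_num) (by norm_num) e_17_3 e_1_3
      (by norm_num)
  have e_391_1173 : cnt 391 1173 = 234 :=
    step (N := 391) (N' := 17) (m := 51) (p := 23) p23 (by norm_num) (by norm_num) (by norm_num) e_391_51 e_17_51
      (by norm_num)
  have e_1375147_4125441 : cnt 1375147 4125441 = 825088 :=
    step (N := 1375147) (N' := 391) (m := 1173) (p := 3517) p3517 (by norm_num) (by norm_num) (by norm_num) e_1375147_1173 e_391_1173
      (by norm_num)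
  have hphi : phi 3 4125441 = cnt 1375147 4125441 := by
    norm_num [phi, cnt]
  rw [hphi]
  exact e_1375147_4125441

/-- **Disproof of the question.** There is a composite integer `n` outside the list `E` for which
`φ₃(n)` divides `n - 1` (namely `n = 4125441 = 3 · 17 · 23 · 3517`, `φ₃(n) = 825088`,
`n - 1 = 5 · 825088`). -/
theorem result : ∃ n : ℕ, 4 ≤ n ∧ ¬ n.Prime ∧ n ∉ E ∧ phi 3 n ∣ n - 1 := by
  have hE : (4125441 : ℕ) ∉ E := by norm_num [E]
  have h4 : 4 ≤ 4125441 := by norm_num
  have hp : ¬ Nat.Prime 4125441 := by norm_num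
  have hd : phi 3 4125441 ∣ 4125441 - 1 := by
    rw [phi_witness]
    norm_num
  exact Exists.intro 4125441 (And.intro h4 (And.intro hp (And.intro hE hd)))

end Pool.Agent.Results.MP_3af439_nt.Counterexample
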